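import Pool.Agent.Helper68.SK.Goals

/-!
Project SK (MP_2b0227_gt), packet SK-STARJ (helper89): membership in `JJ (starG r)`.
-/

namespace Pool.Agent.Helper89.SK

open Finset Pool.Agent.Helper68.SK

theorem hit_l (r : ℕ) (U : Finset (Bool ⊕ Fin r)) (v : Bool ⊕ Fin r) :
    hit (starG r) U (.inl v) ↔ v ∈ U := Iff.rfl

theorem hit_r (r : ℕ) (U : Finset (Bool ⊕ Fin r)) (i : Fin r) (s : Bool) :
    hit (starG r) U (.inr (i, s)) ↔ (.inl s ∈ U ∨ .inr i ∈ U) := Iff.rfl

theorem mass_star (r : ℕ) (z : (Bool ⊕ Fin r) ⊕ (Fin r × Bool) → ℤ) (U : Finset (Bool ⊕ Fin r)) :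
    mass (starG r) z U =
      ((if .inl false ∈ U then z (.inl (.inl false)) else 0) +
        (if .inl true ∈ U then z (.inl (.inl true)) else 0)) +
      ∑ i : Fin r, ((if .inr i ∈ U then z (.inl (.inr i)) else 0) +
        ((if .inl false ∈ U ∨ .inr i ∈ U then z (.inr (i, false)) else 0) +
         (if .inl true ∈ U ∨ .inr i ∈ U then z (.inr (i, true)) else 0))) := by
  unfold mass
  rw [Fintype.sum_sum_type, Fintype.sum_sum_type, Fintype.sum_bool, Fintype.sum_prod_type]
  simp only [Fintype.sum_bool, hit_l, hit_r]
  simp only [Finset.sum_add_distrib]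
  ring

theorem total_star (r : ℕ) (z : (Bool ⊕ Fin r) ⊕ (Fin r × Bool) → ℤ) :
    ∑ a, z a = (z (.inl (.inl false)) + z (.inl (.inl true))) +
      ∑ i : Fin r, (z (.inl (.inr i)) + (z (.inr (i, false)) + z (.inr (i, true)))) := by
  rw [Fintype.sum_sum_type, Fintype.sum_sum_type, Fintype.sum_bool, Fintype.sum_prod_type]
  simp only [Fintype.sum_bool]
  simp only [Finset.sum_add_distrib]
  ring

/-- the mass of a set with exactly one hub `s` -/
theorem mass_one (r : ℕ) (z : (Bool ⊕ Fin r) ⊕ (Fin r × Bool) → ℤ) (U : Finset (Bool ⊕ Fin r))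
    (s : Bool) (h1 : .inl s ∈ U) (h2 : .inl (!s) ∉ U) :
    mass (starG r) z U = z (.inl (.inl s)) +
      ∑ i : Fin r, (z (.inr (i, s)) +
        (if .inr i ∈ U then z (.inl (.inr i)) + z (.inr (i, !s)) else 0)) := by
  rw [mass_star]
  cases s with
  | false =>
    simp only [Bool.not_false] at h1 h2 ⊢
    simp only [h1, h2, if_true, if_false, true_or, false_or]
    rw [add_zero]
    congr 1
    refine Finset.sum_congr rfl fun i _ => ?_
    by_cases hi : (Sum.inr i : Bool ⊕ Fin r) ∈ U
    · simp only [hi, if_true]; ring
    · simp only [hi, if_false]; ring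
  | true =>
    simp only [Bool.not_true] at h1 h2 ⊢
    simp only [h1, h2, if_true, if_false, true_or, false_or]
    rw [zero_add]
    congr 1
    refine Finset.sum_congr rfl fun i _ => ?_
    by_cases hi : (Sum.inr i : Bool ⊕ Fin r) ∈ U
    · simp only [hi, if_true]; ring
    · simp only [hi, if_false]; ring

theorem starJ : GoalStarJ := by
  intro r z htot hneg
  have htot' := total_star r z
  rw [htot] at htot'
  constructor
  · rintro ⟨-, hU⟩
    refine ⟨fun i => ⟨?_, ?_⟩, fun s => ?_⟩
    · -- complement of `{middle i}`
      have h := hU (univ.erase (.inr i)) ⟨.inl false, by simp⟩ (by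
        intro h
        have : (Sum.inr i : Bool ⊕ Fin r) ∈ univ.erase (Sum.inr i) := by rw [h]; exact mem_univ _
        simp at this)
      rw [mass_star] at h
      simp only [mem_erase, mem_univ, and_true, ne_eq, reduceCtorEq, not_false_eq_true, if_true,
        true_or, Sum.inr.injEq, ite_not] at h
      have h2 : ∑ x : Fin r, ((if x = i then 0 else z (Sum.inl (Sum.inr x))) +
          (z (Sum.inr (x, false)) + z (Sum.inr (x, true)))) =
          ∑ x : Fin r, (z (.inl (.inr x)) + (z (.inr (x, false)) + z (.inr (x, true)))) -
            z (.inl (.inr i)) := by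
        have h3 : ∀ x : Fin r, ((if x = i then 0 else z (Sum.inl (Sum.inr x))) +
          (z (Sum.inr (x, false)) + z (Sum.inr (x, true)))) =
          (z (.inl (.inr x)) + (z (.inr (x, false)) + z (.inr (x, true)))) -
            (if x = i then z (.inl (.inr x)) else 0) := by
          intro x; split_ifs <;> ring
        simp only [h3]
        rw [Finset.sum_sub_distrib]
        simp
      rw [h2] at h
      omega
    · -- `{middle i}`
      have h := hU {.inr i} ⟨.inr i, by simp⟩ (by
        intro h
        have : (Sum.inl false : Bool ⊕ Fin r) ∈ ({Sum.inr i} : Finset (Bool ⊕ Fin r)) := by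
          rw [h]; exact mem_univ _
        simp at this)
      rw [mass_star] at h
      simp only [mem_singleton, reduceCtorEq, if_false, false_or, Sum.inr.injEq, zero_add] at h
      have h3 : ∀ x : Fin r, ((if x = i then z (Sum.inl (Sum.inr x)) else 0) +
          ((if x = i then z (Sum.inr (x, false)) else 0) +
            (if x = i then z (Sum.inr (x, true)) else 0))) =
          if x = i then (z (.inl (.inr x)) + (z (.inr (x, false)) + z (.inr (x, true)))) else 0 := by
        intro x; split_ifs <;> ring
      simp only [h3] at h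
      simp only [Finset.sum_ite_eq', mem_univ, if_true] at h
      omega
    · -- one hub
      classical
      let W : Finset (Bool ⊕ Fin r) := univ.filter fun v => v = .inl s ∨
        ∃ i, v = .inr i ∧ 0 < z (.inl (.inr i)) + z (.inr (i, !s))
      have h1 : (Sum.inl s : Bool ⊕ Fin r) ∈ W := by simp [W]
      have h2 : (Sum.inl (!s) : Bool ⊕ Fin r) ∉ W := by simp [W]
      have hW : ∀ i, ((Sum.inr i : Bool ⊕ Fin r) ∈ W ↔
          0 < z (.inl (.inr i)) + z (.inr (i, !s))) := by
        intro i; simp [W]
      have h := hU W ⟨_, h1⟩ (by intro h; rw [h] at h2; exact h2 (mem_univ _))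
      rw [mass_one r z W s h1 h2] at h
      have h3 : ∀ i : Fin r, (z (.inr (i, s)) +
          (if (Sum.inr i : Bool ⊕ Fin r) ∈ W then z (.inl (.inr i)) + z (.inr (i, !s)) else 0)) =
          - (- z (.inr (i, s)) - max 0 (z (.inl (.inr i)) + z (.inr (i, !s)))) := by
        intro i
        by_cases hi : 0 < z (.inl (.inr i)) + z (.inr (i, !s))
        · rw [if_pos ((hW i).2 hi), max_eq_right hi.le]; ring
        · rw [if_neg (fun h => hi ((hW i).1 h)), max_eq_left (not_lt.1 hi)]; ring
      simp only [h3] at h
      rw [Finset.sum_neg_distrib] at h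
      omega
  · rintro ⟨h1, h2⟩
    refine ⟨htot, fun U hne hun => ?_⟩
    by_cases hf : (Sum.inl false : Bool ⊕ Fin r) ∈ U
    · by_cases ht : (Sum.inl true : Bool ⊕ Fin r) ∈ U
      · -- two hubs
        obtain ⟨i, hi⟩ : ∃ i : Fin r, (Sum.inr i : Bool ⊕ Fin r) ∉ U := by
          by_contra hcon
          push Not at hcon
          apply hun
          rw [Finset.eq_univ_iff_forall]
          rintro (b | i)
          · cases b
            · exact hf
            · exact ht
          · exact hcon i
        rw [mass_star]
        simp only [hf, ht, if_true, true_or]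
        have h3 : ∀ x : Fin r, ((if (Sum.inr x : Bool ⊕ Fin r) ∈ U then z (Sum.inl (Sum.inr x))
            else 0) + (z (Sum.inr (x, false)) + z (Sum.inr (x, true)))) =
            (z (.inl (.inr x)) + (z (.inr (x, false)) + z (.inr (x, true)))) -
            (if (Sum.inr x : Bool ⊕ Fin r) ∈ U then 0 else z (.inl (.inr x))) := by
          intro x; split_ifs <;> ring
        simp only [h3]
        rw [Finset.sum_sub_distrib]
        have h4 : 1 ≤ ∑ x : Fin r, (if (Sum.inr x : Bool ⊕ Fin r) ∈ U then 0
            else z (.inl (.inr x))) := by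
          calc (1 : ℤ) ≤ (if (Sum.inr i : Bool ⊕ Fin r) ∈ U then 0 else z (.inl (.inr i))) := by
                rw [if_neg hi]; exact (h1 i).1
            _ ≤ _ := Finset.single_le_sum (f := fun x : Fin r =>
                (if (Sum.inr x : Bool ⊕ Fin r) ∈ U then 0 else z (.inl (.inr x))))
                (fun x _ => by
                  show (0 : ℤ) ≤ if (Sum.inr x : Bool ⊕ Fin r) ∈ U then 0 else z (.inl (.inr x))
                  split_ifs
                  · exact le_refl _
                  · have := (h1 x).1; omega) (mem_univ i)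
        omega
      · -- hub `false` only
        rw [mass_one r z U false hf ht]
        have h3 := h2 false
        have h4 : ∑ i : Fin r, (z (.inr (i, false)) +
            (if (Sum.inr i : Bool ⊕ Fin r) ∈ U then z (.inl (.inr i)) + z (.inr (i, !false))
              else 0)) ≤
            ∑ i : Fin r, -(- z (.inr (i, false)) -
              max 0 (z (.inl (.inr i)) + z (.inr (i, !false)))) := by
          refine Finset.sum_le_sum fun i _ => ?_
          split_ifs
          · have := le_max_right 0 (z (.inl (.inr i)) + z (.inr (i, !false))); omega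
          · have := le_max_left 0 (z (.inl (.inr i)) + z (.inr (i, !false))); omega
        rw [Finset.sum_neg_distrib] at h4
        omega
    · by_cases ht : (Sum.inl true : Bool ⊕ Fin r) ∈ U
      · rw [mass_one r z U true ht hf]
        have h3 := h2 true
        have h4 : ∑ i : Fin r, (z (.inr (i, true)) +
            (if (Sum.inr i : Bool ⊕ Fin r) ∈ U then z (.inl (.inr i)) + z (.inr (i, !true))
              else 0)) ≤
            ∑ i : Fin r, -(- z (.inr (i, true)) -
              max 0 (z (.inl (.inr i)) + z (.inr (i, !true)))) := by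
          refine Finset.sum_le_sum fun i _ => ?_
          split_ifs
          · have := le_max_right 0 (z (.inl (.inr i)) + z (.inr (i, !true))); omega
          · have := le_max_left 0 (z (.inl (.inr i)) + z (.inr (i, !true))); omega
        rw [Finset.sum_neg_distrib] at h4
        omega
      · -- no hub
        rw [mass_star]
        simp only [hf, ht, if_false, false_or, zero_add]
        refine Finset.sum_nonpos fun i _ => ?_
        split_ifs
        · have := (h1 i).2; omega
        · simp

end Pool.Agent.Helper89.SK
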